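import Pool.Agent.Run7.h105.PC.Defs

/-! Piece UP of helper105's project PC (MP_efb919_an). -/

set_option autoImplicit false

open Filter Topology Set MeasureTheory
open scoped ENNReal
open Pool.Agent.Run7.h105.PC

namespace Run7.h54.PC

theorem t_UP : S_UPK → S_BOX → S_BAD2 → S_UP := by
  intro hUPK hBOX hBAD s c hs hc K hK hKc ε hε
  obtain ⟨hc0, hc1, hc2⟩ := hc
  set lam : ℝ := (volume K).toReal with hlam
  have hl0 : 0 ≤ lam := ENNReal.toReal_nonneg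
  have hl1 : lam ≤ 1 := by
    have h1 : volume K ≤ volume (Icc (0:ℝ) 1) := measure_mono hK
    have h2 : volume (Icc (0:ℝ) 1) = 1 := by simp
    rw [h2] at h1
    have := ENNReal.toReal_mono ENNReal.one_ne_top h1
    simpa using this
  obtain ⟨m, hm1, hm⟩ := hc2 (ε / 8) (by positivity)
  obtain ⟨r, hr⟩ := exists_nat_gt (4 * c / ε + 1)
  have hr1 : (1:ℝ) ≤ r := by
    have : 0 < 4 * c / ε := by positivity
    linarith
  have hr1' : 1 ≤ r := by exact_mod_cast hr1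
  have hr0 : (0:ℝ) < r := by linarith
  have hrc : c / r ≤ ε / 4 := by
    rw [div_le_iff₀ hr0]
    have : 4 * c / ε ≤ r := by linarith
    rw [div_le_iff₀ hε] at this
    linarith
  have hm0 : (0:ℝ) < m := by exact_mod_cast hm1
  set a : ℝ := (1 + 1 / (r:ℝ)) with ha
  have ha1 : 0 < a := by positivity
  have ha2 : a ≤ 2 := by
    have : 1 / (r:ℝ) ≤ 1 := by rw [div_le_one hr0]; exact hr1
    linarith
  have hp : 1 ≤ m * r ^ 2 := Nat.one_le_iff_ne_zero.2 (by positivity)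
  let k : ℝ → ℕ := fun δ => ⌈a / m * δ⁻¹⌉₊
  have hk : Tendsto k (𝓝[>] 0) atTop :=
    tendsto_nat_ceil_atTop.comp (tendsto_inv_nhdsGT_zero.const_mul_atTop (by positivity))
  have hC : Tendsto (fun δ => ((cells K (k δ)).card : ℝ) / (k δ : ℝ)) (𝓝[>] 0) (𝓝 lam) :=
    (hBOX K hK hKc).comp hk
  have hB : Tendsto (fun δ => ((bad K (k δ) (m * r ^ 2)).card : ℝ) / (k δ : ℝ)) (𝓝[>] 0) (𝓝 0) :=
    (hBAD K hK hKc (m * r ^ 2) hp).comp hk
  have hδ : Tendsto (fun δ : ℝ => a / m + δ) (𝓝[>] 0) (𝓝 (a / m + 0)) :=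
    tendsto_const_nhds.add (tendsto_id.mono_left nhdsWithin_le_nhds)
  have hΦ := (((hC.const_mul (G s m : ℝ)).add (hB.const_mul ((m * r ^ 2 : ℕ) : ℝ))).mul hδ)
  have hlt : ((G s m : ℝ) * lam + ((m * r ^ 2 : ℕ) : ℝ) * 0) * (a / m + 0) < c * lam + ε := by
    have h1 : (G s m : ℝ) * lam ≤ (c + ε / 8) * m * lam := mul_le_mul_of_nonneg_right hm hl0
    have h2 : ((G s m : ℝ) * lam + ((m * r ^ 2 : ℕ) : ℝ) * 0) * (a / m + 0)
        ≤ (c + ε / 8) * m * lam * (a / m) := by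
      rw [mul_zero, add_zero, add_zero]
      exact mul_le_mul_of_nonneg_right h1 (by positivity)
    have h3 : (c + ε / 8) * m * lam * (a / m) = (c + ε / 8) * lam * a := by field_simp
    have h4 : (c + ε / 8) * lam * a = c * lam + c / r * lam + ε / 8 * a * lam := by rw [ha]; ring
    have h5 : c / r * lam ≤ ε / 4 * 1 := mul_le_mul hrc hl1 hl0 (by positivity)
    have h6 : ε / 8 * a * lam ≤ ε / 8 * 2 * 1 :=
      mul_le_mul (mul_le_mul_of_nonneg_left ha2 (by positivity)) hl1 hl0 (by positivity)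
    linarith
  obtain ⟨δ₀, hδ₀, hδ₁⟩ := mem_nhdsGT_iff_exists_Ioo_subset.1 (hΦ.eventually (gt_mem_nhds hlt))
  refine ⟨δ₀, hδ₀, fun δ hd hd' => ?_⟩
  have hmain := hδ₁ ⟨hd, hd'⟩
  simp only [mem_ofPred_eq] at hmain
  have hk0 : 0 < k δ := Nat.ceil_pos.2 (by positivity)
  have hk0' : (0:ℝ) < k δ := by exact_mod_cast hk0
  obtain ⟨X, hX1, hX2, hX3⟩ := hUPK s (by linarith) K hK m r (k δ) hm1 hr1' hk0
  have hkge : a / m * δ⁻¹ ≤ k δ := Nat.le_ceil _
  have hklt : (k δ : ℝ) < a / m * δ⁻¹ + 1 := Nat.ceil_lt_add_one (by positivity)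
  refine ⟨X, hX1, hX2.mono (by linarith) ?_, ?_⟩
  · show a * (1 / ((m:ℝ) * k δ)) ≤ δ
    rw [mul_one_div, div_le_iff₀ (by positivity)]
    calc a = (a / m * δ⁻¹) * (m * δ) := by field_simp
      _ ≤ k δ * (m * δ) := mul_le_mul_of_nonneg_right hkge (by positivity)
      _ = δ * (m * k δ) := by ring
  · have h1 : (X.card : ℝ) ≤ (G s m : ℝ) * (cells K (k δ)).card
        + ((m * r ^ 2 : ℕ) : ℝ) * (bad K (k δ) (m * r ^ 2)).card := by exact_mod_cast hX3
    have h2 : (k δ : ℝ) * δ ≤ a / m + δ := by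
      have h := mul_le_mul_of_nonneg_right hklt.le hd.le
      have h' : (a / m * δ⁻¹ + 1) * δ = a / m + δ := by field_simp
      linarith
    have h3 : 0 ≤ (G s m : ℝ) * (((cells K (k δ)).card : ℝ) / (k δ : ℝ))
        + ((m * r ^ 2 : ℕ) : ℝ) * (((bad K (k δ) (m * r ^ 2)).card : ℝ) / (k δ : ℝ)) := by positivity
    have h4 : ((G s m : ℝ) * (cells K (k δ)).card
        + ((m * r ^ 2 : ℕ) : ℝ) * (bad K (k δ) (m * r ^ 2)).card) * δ
        = ((G s m : ℝ) * (((cells K (k δ)).card : ℝ) / (k δ : ℝ))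
        + ((m * r ^ 2 : ℕ) : ℝ) * (((bad K (k δ) (m * r ^ 2)).card : ℝ) / (k δ : ℝ)))
          * ((k δ : ℝ) * δ) := by
      have : (k δ : ℝ) ≠ 0 := hk0'.ne'
      generalize (k δ : ℝ) = q at this ⊢
      field_simp
    calc (X.card : ℝ) * δ ≤ ((G s m : ℝ) * (cells K (k δ)).card
        + ((m * r ^ 2 : ℕ) : ℝ) * (bad K (k δ) (m * r ^ 2)).card) * δ :=
          mul_le_mul_of_nonneg_right h1 hd.le
      _ = _ := h4
      _ ≤ _ := mul_le_mul_of_nonneg_left h2 h3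
      _ ≤ c * lam + ε := hmain.le

end Run7.h54.PC
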